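import Mathlib
import Pool.Agent.H.MP_b3d406_nt.B

set_option autoImplicit false

namespace Pool.Agent.Results.MP_b3d406_nt.Auto

open PowerSeries

/-- the coefficient of `x ^ n` in `(1 - x) ^ (-m)` times the product of the
`(1 - x ^ k ^ i) ^ (-m (k - 1))` -/
noncomputable def S (k m n : ℕ) : ℤ :=
  coeff n ((PowerSeries.mk fun _ : ℕ => (1 : ℤ)) ^ m * ∏ i ∈ Finset.range (n + 1),
    (PowerSeries.mk fun j : ℕ => if k ^ i ∣ j then (1 : ℤ) else 0) ^ (m * (k - 1)))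

theorem result (m : ℕ) (h0 : 0 < m) (hm : m % 8 ≠ 6) :
    {e : ℕ → ℕ∞ | ∃ i j : ℕ, j < 4 ^ i ∧
      e = fun n => emultiplicity 4 (S 4 m (4 ^ i * n + j))}.Finite := by
  have e : (PowerSeries.mk fun _ : ℕ => (1 : ℤ)) = Pool.Agent.Lib.helper11.Mahler.geo ℤ 1 := by
    ext j
    simp [Pool.Agent.Lib.helper11.Mahler.geo]
  simp only [S, e]
  exact Pool.Agent.H.MP_b3d406_nt.main m h0 hm

end Pool.Agent.Results.MP_b3d406_nt.Auto
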